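import Pool.Agent.V1180.Moll2

set_option autoImplicit false

/-! MP_0643f8_an: one boundary measurement does not determine a disk (ball) shaped elastic
inclusion when the shear moduli agree and the first Lame constants differ. -/

open Set Filter Topology MeasureTheory InnerProductSpace Laplacian Metric
open scoped ContDiff ENNReal Gradient Pointwise

namespace Pool.Agent.Results.MP_0643f8_an.NotUnique

section Defs

variable {E : Type} [NormedAddCommGroup E] [InnerProductSpace ℝ E] [FiniteDimensional ℝ E]
  [MeasurableSpace E] [BorelSpace E]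

/-- divergence of a vector field -/
noncomputable def divg (u : E → E) (x : E) : ℝ := LinearMap.trace ℝ E (fderiv ℝ u x)

/-- the Lame operator `mu Δ u + (lam + mu) ∇ (div u)` -/
noncomputable def lame (lam mu : ℝ) (u : E → E) (x : E) : E :=
  mu • Δ u x + (lam + mu) • gradient (divg u) x

/-- the conormal derivative `lam (div u) ν + mu (∇ u + (∇ u)ᵀ) ν` at `x`, for the direction `ν` -/
noncomputable def conormal (lam mu : ℝ) (u : E → E) (ν x : E) : E :=
  (lam * divg u x) • ν + mu • (fderiv ℝ u x ν + ContinuousLinearMap.adjoint (fderiv ℝ u x) ν)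

/-- rigid displacements `x ↦ A x + b` with `A` antisymmetric -/
def IsRigid (ψ : E → E) : Prop :=
  ∃ (A : E →L[ℝ] E) (b : E),
    (∀ x y, inner ℝ (A x) y = - inner ℝ x (A y)) ∧ ∀ x, ψ x = A x + b

/-- fields in `L^2` of the unit sphere which are orthogonal to all rigid displacements -/
def InL2Psi (g : E → E) : Prop :=
  MemLp (fun x : sphere (0 : E) 1 => g x) 2 (volume : Measure E).toSphere ∧
    ∀ ψ, IsRigid ψ → ∫ x : sphere (0 : E) 1, inner ℝ (g x) (ψ x)
      ∂(volume : Measure E).toSphere = 0

/-- the Lame equation in a set -/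
def LameIn (lam mu : ℝ) (S : Set E) (u : E → E) : Prop := ∀ x ∈ S, lame lam mu u x = 0

/-- `uin` in `D = ball c r` and `uout` in `Ω \ closure D`, `Ω` the unit ball, form a (classical)
solution of the transmission problem with Neumann datum `g` -/
structure IsSolution (lam mu lam' mu' : ℝ) (c : E) (r : ℝ) (g uin uout : E → E) : Prop where
  smooth_in : ContDiff ℝ ∞ uin
  smooth_out : ContDiff ℝ ∞ uout
  eq_out : LameIn lam mu (ball 0 1 \ closedBall c r) uout
  eq_in : LameIn lam' mu' (ball c r) uin
  trace : ∀ x ∈ sphere c r, uin x = uout x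
  flux : ∀ x ∈ sphere c r,
    conormal lam' mu' uin (r⁻¹ • (x - c)) x = conormal lam mu uout (r⁻¹ • (x - c)) x
  neumann : ∀ x ∈ sphere (0 : E) 1, conormal lam mu uout x x = g x
  normalised : InL2Psi uout

/-- the datum `g` is nonzero in `L^2` of the unit sphere -/
def Nonzero (g : E → E) : Prop :=
  ¬ (fun x : sphere (0 : E) 1 => g x) =ᵐ[(volume : Measure E).toSphere] 0

/-- `D = ball c r` has positive radius and its closure lies in the unit ball -/
def BallIn (c : E) (r : ℝ) : Prop := 0 < r ∧ closedBall c r ⊆ ball 0 1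

/-- for the datum `g` the inclusions `ball c₁ r₁` and `ball c₂ r₂` have solutions with equal
values on the unit sphere -/
def SameData (lam mu lam' mu' : ℝ) (g : E → E) (c₁ : E) (r₁ : ℝ) (c₂ : E) (r₂ : ℝ) : Prop :=
  ∃ uin₁ uout₁ uin₂ uout₂ : E → E,
    IsSolution lam mu lam' mu' c₁ r₁ g uin₁ uout₁ ∧
    IsSolution lam mu lam' mu' c₂ r₂ g uin₂ uout₂ ∧
    ∀ x ∈ sphere (0 : E) 1, uout₁ x = uout₂ x

end Defs

/-- `R^d` -/
abbrev Vec (d : ℕ) := EuclideanSpace ℝ (Fin d)

variable {d : ℕ}

/-- the surface measure on the unit sphere is invariant under linear isometries -/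
theorem sphere_inv (L : Vec d ≃ₗᵢ[ℝ] Vec d)
    (h : Vec d → ℝ) (hc : Continuous h) :
    ∫ u : sphere (0 : Vec d) 1, h (L u)
        ∂((volume : Measure (Vec d)).toSphere) =
      ∫ u : sphere (0 : Vec d) 1, h u
        ∂((volume : Measure (Vec d)).toSphere) := by
  let φ : sphere (0 : Vec d) 1 → sphere (0 : Vec d) 1 :=
    fun u =>
    ⟨L u, by rw [mem_sphere_zero_iff_norm, L.norm_map]; exact mem_sphere_zero_iff_norm.mp u.2⟩
  have hφ : Continuous φ := by
    apply Continuous.subtype_mk
    exact L.continuous.comp continuous_subtype_val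
  have hmap : Measure.map φ ((volume : Measure (Vec d)).toSphere) =
      (volume : Measure (Vec d)).toSphere := by
    ext s hs
    rw [Measure.map_apply hφ.measurable hs, Measure.toSphere_apply' _ (hφ.measurable hs),
      Measure.toSphere_apply' _ hs]
    congr 1
    have h1 : Ioo (0 : ℝ) 1 • ((fun u : sphere (0 : Vec d) 1 =>
        (u : Vec d)) '' (φ ⁻¹' s)) =
        L ⁻¹' (Ioo (0 : ℝ) 1 • ((fun u : sphere (0 : Vec d) 1 =>
          (u : Vec d)) '' s)) := by
      ext x
      constructor
      · rintro ⟨r, hr, _, ⟨u, hu, rfl⟩, rfl⟩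
        refine ⟨r, hr, _, ⟨φ u, hu, rfl⟩, ?_⟩
        change r • L u = L (r • (u : Vec d))
        rw [map_smul]
      · rintro ⟨r, hr, _, ⟨u, hu, rfl⟩, hx⟩
        have hn : ‖L.symm (u : Vec d)‖ = 1 := by
          rw [L.symm.norm_map]; exact mem_sphere_zero_iff_norm.mp u.2
        refine ⟨r, hr, L.symm u, ⟨⟨L.symm u, mem_sphere_zero_iff_norm.mpr hn⟩, ?_, rfl⟩, ?_⟩
        · change φ _ ∈ s
          have : φ ⟨L.symm u, mem_sphere_zero_iff_norm.mpr hn⟩ = u := by
            ext1
            exact L.apply_symm_apply _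
          rw [this]; exact hu
        · change r • L.symm (u : Vec d) = x
          rw [← map_smul]
          have hx' : r • (u : Vec d) = L x := hx
          rw [hx', L.symm_apply_apply]
    rw [h1]
    exact L.measurePreserving.measure_preimage_emb L.toHomeomorph.measurableEmbedding _
  have h2 := integral_map (μ := (volume : Measure (Vec d)).toSphere)
    hφ.aemeasurable (f := fun u : sphere (0 : Vec d) 1 => h u)
    (hc.comp continuous_subtype_val).aestronglyMeasurable
  rw [hmap] at h2
  exact h2.symm

/-- an odd function under a linear isometry has zero integral -/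
theorem sphere_odd (L : Vec d ≃ₗᵢ[ℝ] Vec d)
    (h : Vec d → ℝ) (hc : Continuous h) (ho : ∀ x, h (L x) = - h x) :
    ∫ u : sphere (0 : Vec d) 1, h u
        ∂((volume : Measure (Vec d)).toSphere) = 0 := by
  have h1 := sphere_inv L h hc
  simp_rw [ho] at h1
  rw [integral_neg] at h1
  linarith

/-- the reflection of the `i`-th coordinate -/
noncomputable def refl (i : Fin d) : Vec d ≃ₗᵢ[ℝ] Vec d :=
  LinearIsometryEquiv.piLpCongrRight 2
    (fun j => if j = i then LinearIsometryEquiv.neg ℝ else LinearIsometryEquiv.refl ℝ ℝ)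

theorem refl_eq (i : Fin d) (x : Vec d) :
    refl i x = x - (2 * x i) • EuclideanSpace.single i (1:ℝ) := by
  ext j
  by_cases h : j = i
  · subst h
    simp [refl]
    ring
  · simp [refl, h]

/-- the linear field `x ↦ x_i e_i - x_j e_j` -/
noncomputable def fld (i j : Fin d) :
    Vec d →L[ℝ] Vec d :=
  (EuclideanSpace.proj i : Vec d →L[ℝ] ℝ).smulRight
      (EuclideanSpace.single i (1:ℝ)) -
    (EuclideanSpace.proj j : Vec d →L[ℝ] ℝ).smulRight
      (EuclideanSpace.single j (1:ℝ))

theorem fld_apply (i j : Fin d) (x : Vec d) :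
    fld i j x = x i • EuclideanSpace.single i (1:ℝ) - x j • EuclideanSpace.single j (1:ℝ) := by
  simp [fld]

theorem inner_fld (i j : Fin d) (x y : Vec d) :
    inner ℝ (fld i j x) y = x i * y i - x j * y j := by
  rw [fld_apply, inner_sub_left, inner_smul_left, inner_smul_left,
    EuclideanSpace.inner_single_left, EuclideanSpace.inner_single_left]
  simp

theorem fld_adjoint (i j : Fin d) : ContinuousLinearMap.adjoint (fld i j) = fld i j := by
  symm
  rw [ContinuousLinearMap.eq_adjoint_iff]
  intro x y
  rw [inner_fld, real_inner_comm, inner_fld]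
  ring

theorem divg_fld {i j : Fin d} : divg (fld i j) = fun _ => 0 := by
  ext x
  unfold divg
  rw [LinearMap.trace_eq_sum_inner _ (EuclideanSpace.basisFun (Fin d) ℝ)]
  have h : ∀ k : Fin d, inner ℝ (EuclideanSpace.basisFun (Fin d) ℝ k)
      ((fderiv ℝ (fld i j) x : Vec d →ₗ[ℝ] Vec d) (EuclideanSpace.basisFun (Fin d) ℝ k)) =
      (if k = i then (1:ℝ) else 0) - (if k = j then (1:ℝ) else 0) := by
    intro k
    rw [ContinuousLinearMap.coe_coe, ContinuousLinearMap.fderiv, fld_apply,
      EuclideanSpace.basisFun_apply, EuclideanSpace.inner_single_left]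
    by_cases h1 : k = i
    · subst h1
      by_cases h2 : k = j
      · subst h2; simp
      · simp [h2, Ne.symm h2]
    · by_cases h2 : k = j
      · subst h2; simp [h1, Ne.symm h1]
      · simp [h1, h2, Ne.symm h1, Ne.symm h2]
  simp_rw [h]
  simp

theorem lap_fld (i j : Fin d) (x : Vec d) : Δ (⇑(fld i j)) x = 0 := by
  rw [Pool.Agent.V1180.lap_eq_sum (stdOrthonormalBasis ℝ _) (fld i j).contDiff.contDiffAt]
  simp

theorem lame_fld (i j : Fin d) (lam mu : ℝ) (x : Vec d) :
    lame lam mu (fld i j) x = 0 := by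
  unfold lame
  rw [lap_fld, divg_fld]
  simp [gradient]

theorem conormal_fld (i j : Fin d) (lam mu : ℝ) (ν x : Vec d) :
    conormal lam mu (fld i j) ν x = (2 * mu) • fld i j ν := by
  unfold conormal
  rw [divg_fld, ContinuousLinearMap.fderiv, fld_adjoint]
  rw [mul_zero, zero_smul, zero_add, ← two_smul ℝ, smul_smul, mul_comm]

theorem smul_fld_psi (i j : Fin d) (m : ℝ) : InL2Psi (fun x => m • fld i j x) := by
  constructor
  · have hc : Continuous (fun x : sphere (0 : Vec d) 1 => m • fld i j x) :=
      by fun_prop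
    exact hc.memLp_of_hasCompactSupport (HasCompactSupport.of_compactSpace _)
  · rintro ψ ⟨B, b, hB, hψ⟩
    have hBi : ∀ k : Fin d, (B (EuclideanSpace.single k 1)) k = 0 := by
      intro k
      have := hB (EuclideanSpace.single k 1) (EuclideanSpace.single k 1)
      rw [EuclideanSpace.inner_single_left, EuclideanSpace.inner_single_right] at this
      simp at this
      linarith
    have hk : ∀ k : Fin d, ∫ u : sphere (0 : Vec d) 1,
        (u : Vec d) k * (B u) k
        ∂((volume : Measure (Vec d)).toSphere) = 0 := by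
      intro k
      apply sphere_odd (refl k) (fun x => x k * (B x) k) (by fun_prop)
      intro x
      simp only
      rw [refl_eq, map_sub, map_smul]
      simp [hBi k]
      ring
    have hb : ∫ u : sphere (0 : Vec d) 1, inner ℝ (fld i j u) b
        ∂((volume : Measure (Vec d)).toSphere) = 0 := by
      apply sphere_odd (LinearIsometryEquiv.neg ℝ) (fun x => inner ℝ (fld i j x) b) (by fun_prop)
      intro x
      simp
    have hint : ∀ f : Vec d → ℝ, Continuous f →
        Integrable (fun u : sphere (0 : Vec d) 1 => f u)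
        ((volume : Measure (Vec d)).toSphere) := by
      intro f hf
      exact (hf.comp continuous_subtype_val).integrable_of_hasCompactSupport
        (HasCompactSupport.of_compactSpace _)
    have e : ∀ u : sphere (0 : Vec d) 1,
        inner ℝ (m • fld i j u) (ψ u) = m * (((u : Vec d) i * (B u) i
          - (u : Vec d) j * (B u) j) + inner ℝ (fld i j u) b) := by
      intro u
      rw [hψ, inner_smul_left, inner_add_right, inner_fld i j _ (B u)]
      simp
    simp_rw [e]
    rw [integral_const_mul, integral_add, integral_sub, hk, hk, hb]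
    · simp
    · exact hint (fun x => x i * (B x) i) (by fun_prop)
    · exact hint (fun x => x j * (B x) j) (by fun_prop)
    · exact hint (fun x => x i * (B x) i - x j * (B x) j) (by fun_prop)
    · exact hint (fun x => inner ℝ (fld i j x) b) (by fun_prop)

theorem fld_psi (i j : Fin d) : InL2Psi (fld i j) := by
  have := smul_fld_psi i j 1
  simpa using this

/-- For all `d ≥ 2`, all background constants, all inclusion constants with the same shear modulus
and a different first constant, there is a nonzero datum `g` for which all balls compactly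
contained in the unit ball give the same boundary measurement; in particular uniqueness fails. -/
theorem result {d : ℕ} (hd : 2 ≤ d) (lam mu lam' : ℝ) (_hmu : 0 < mu)
    (_hlam : 0 < d * lam + 2 * mu) (_hlam' : 0 < lam') (_hne : lam' ≠ lam) :
    ∃ g : Vec d → Vec d, InL2Psi g ∧ Nonzero g ∧
      (∀ c₁ r₁ c₂ r₂, BallIn c₁ r₁ → BallIn c₂ r₂ → SameData lam mu lam' mu g c₁ r₁ c₂ r₂) ∧
      (∃ c₁ r₁ c₂ r₂, BallIn c₁ r₁ ∧ BallIn c₂ r₂ ∧ ball c₁ r₁ ≠ ball c₂ r₂ ∧
        SameData lam mu lam' mu g c₁ r₁ c₂ r₂) := by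
  let i : Fin d := ⟨0, by omega⟩
  let j : Fin d := ⟨1, by omega⟩
  have hij : i ≠ j := by simp [i, j]
  have hsol : ∀ (c : Vec d) (r : ℝ),
      IsSolution lam mu lam' mu c r (fun x => (2 * mu) • fld i j x) (fld i j) (fld i j) := by
    intro c r
    refine ⟨(fld i j).contDiff, (fld i j).contDiff, fun x _ => lame_fld i j _ _ x,
      fun x _ => lame_fld i j _ _ x, fun x _ => rfl, fun x _ => ?_, fun x _ => ?_, fld_psi i j⟩
    · rw [conormal_fld, conormal_fld]
    · rw [conormal_fld]
  have hall : ∀ (c₁ : Vec d) (r₁ : ℝ) (c₂ : Vec d) (r₂ : ℝ), BallIn c₁ r₁ → BallIn c₂ r₂ →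
      SameData lam mu lam' mu (fun x => (2 * mu) • fld i j x) c₁ r₁ c₂ r₂ :=
    fun c₁ r₁ c₂ r₂ _ _ => ⟨_, _, _, _, hsol c₁ r₁, hsol c₂ r₂, fun _ _ => rfl⟩
  refine ⟨fun x => (2 * mu) • fld i j x, smul_fld_psi i j _, ?_, hall, ?_⟩
  · intro hzero
    have hc : Continuous (fun x : sphere (0 : Vec d) 1 =>
        (2 * mu) • fld i j x) := by
      fun_prop
    have h0 := (hc.ae_eq_iff_eq _ continuous_zero).1 hzero
    have h1 := congrFun h0 ⟨EuclideanSpace.single i 1, by simp⟩
    simp only [Pi.zero_apply, smul_eq_zero] at h1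
    rcases h1 with h1 | h1
    · linarith
    · have h2 := congrArg (fun v : Vec d => v i) h1
      rw [fld_apply] at h2
      simp [hij] at h2
  · have hs1 : closedBall (0 : Vec d) (1/2) ⊆ ball 0 1 :=
      closedBall_subset_ball (by norm_num)
    have hs2 : closedBall (0 : Vec d) (1/4) ⊆ ball 0 1 :=
      closedBall_subset_ball (by norm_num)
    refine ⟨0, 1/2, 0, 1/4, ⟨by norm_num, hs1⟩, ⟨by norm_num, hs2⟩, ?_,
      hall 0 (1/2) 0 (1/4) ⟨by norm_num, hs1⟩ ⟨by norm_num, hs2⟩⟩
    intro heq
    have hm : (EuclideanSpace.single i (1/3 : ℝ)) ∈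
        ball (0 : Vec d) (1/2) := by
      rw [mem_ball_zero_iff, PiLp.norm_single]
      norm_num
    rw [heq, mem_ball_zero_iff, PiLp.norm_single] at hm
    norm_num at hm

end Pool.Agent.Results.MP_0643f8_an.NotUnique
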